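import Pool.Agent.H361.FU.Gen2

/-!
# The Folner function of `G_ω` for generic `ω`

The groups `G ω`, their generators `gens ω`, `IsFolner` and `Xi` are those of the library file
`LowerBounds` for the same problem.
-/

set_option autoImplicit false

namespace Pool.Agent.Results.MP_0b0f5a_al.GenericOmega

open Pool.Agent.Results.MP_0b0f5a_al.LowerBounds Filter

/-- the Folner function `f_ω(n)` of `G_ω` for the four canonical generators -/
noncomputable def fol (ω : ℕ → Fin 3) (n : ℕ) : ℕ :=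
  sInf {m | ∃ E : Set (G ω), E.Finite ∧ E.Nonempty ∧ IsFolner ω n E ∧ E.ncard = m}

/-- `f ≼ f'`: there is `C` with `f(n) ≤ C f'(C n)` for all `n ≥ 1` -/
def Le (f f' : ℕ → ℕ) : Prop := ∃ C : ℕ, ∀ n, 1 ≤ n → f n ≤ C * f' (C * n)

/-- the equivalence `f ∼ f'` of the problem -/
def Eqv (f f' : ℕ → ℕ) : Prop := Le f f' ∧ Le f' f

/-- **Theorem.** (The space `Ω = {0,1,2}^ℕ` has the product topology.)
(1) For every `ω'` the set of all `ω` with `f_ω ∼ f_{ω'}` is meager.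
(2) For a comeager set of pairs `(ω, ω')` neither `f_ω ≼ f_{ω'}` nor `f_{ω'} ≼ f_ω`.
(3) There is `c > 0` such that for every `φ` with `φ(n) → ∞`, for a comeager set of `ω`: `ω ∈ Ξ`,
`f_ω(n) ≤ exp(n φ(n))` for infinitely many `n`, and `f_ω(n) ≥ exp(c n log n)` for infinitely
many `n`. -/
theorem result :
    (∀ ω' : ℕ → Fin 3, IsMeagre {ω : ℕ → Fin 3 | Eqv (fol ω) (fol ω')}) ∧
    (∀ᶠ p in residual ((ℕ → Fin 3) × (ℕ → Fin 3)),
      ¬ Le (fol p.1) (fol p.2) ∧ ¬ Le (fol p.2) (fol p.1)) ∧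
    ∃ c : ℝ, 0 < c ∧ ∀ φ : ℕ → ℝ, Tendsto φ atTop atTop →
      ∀ᶠ ω in residual (ℕ → Fin 3), Xi ω ∧
        (∀ N : ℕ, ∃ n : ℕ, N ≤ n ∧ (fol ω n : ℝ) ≤ Real.exp (n * φ n)) ∧
        ∀ N : ℕ, ∃ n : ℕ, N ≤ n ∧ Real.exp (c * (n * Real.log n)) ≤ (fol ω n : ℝ) :=
  ⟨fun ω' => H361.FU.gen_one ω', H361.FU.gen_pair, H361.FU.gen_osc⟩

end Pool.Agent.Results.MP_0b0f5a_al.GenericOmega
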