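import Pool.Agent.H361.FU.Fam

/-!
# Incomparable Folner functions of the groups `G_ω`

The groups `G ω`, their generators `gens ω`, `IsFolner` and `Xi` are those of the library file
`LowerBounds` for the same problem.
-/

set_option autoImplicit false

namespace Pool.Agent.Results.MP_0b0f5a_al.ManyClasses

open Pool.Agent.Results.MP_0b0f5a_al.LowerBounds

/-- the Folner function `f_ω(n)` of `G_ω` for the four canonical generators -/
noncomputable def fol (ω : ℕ → Fin 3) (n : ℕ) : ℕ :=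
  sInf {m | ∃ E : Set (G ω), E.Finite ∧ E.Nonempty ∧ IsFolner ω n E ∧ E.ncard = m}

/-- `f ≼ f'`: there is `C` with `f(n) ≤ C f'(C n)` for all `n ≥ 1` -/
def Le (f f' : ℕ → ℕ) : Prop := ∃ C : ℕ, ∀ n, 1 ≤ n → f n ≤ C * f' (C * n)

/-- **Theorem.** There is an absolute `c > 0` such that for every `φ` with `φ(n) → ∞` there is a
family `ω_x ∈ Ξ`, indexed by the functions `x : ℕ → Bool` (so of the size of the continuum), such
that for each `x` the Folner function `f` of `G_{ω_x}` has `f(n) ≤ exp(n φ(n))` for infinitely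
many `n` and `f(n) ≥ exp(c n log n)` for infinitely many `n`, and for all `x ≠ y` it is not true
that `f_{ω_x} ≼ f_{ω_y}`. -/
theorem result : ∃ c : ℝ, 0 < c ∧ ∀ φ : ℕ → ℝ, Filter.Tendsto φ Filter.atTop Filter.atTop →
    ∃ ω : (ℕ → Bool) → ℕ → Fin 3, (∀ x, Xi (ω x)) ∧
      (∀ (x : ℕ → Bool) (N : ℕ), ∃ n : ℕ, N ≤ n ∧ (fol (ω x) n : ℝ) ≤ Real.exp (n * φ n)) ∧
      (∀ (x : ℕ → Bool) (N : ℕ), ∃ n : ℕ, N ≤ n ∧
        Real.exp (c * (n * Real.log n)) ≤ (fol (ω x) n : ℝ)) ∧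
      ∀ x y, x ≠ y → ¬ Le (fol (ω x)) (fol (ω y)) := by
  obtain ⟨c, hc, hlarge⟩ := H361.FU.large
  refine ⟨c, hc, fun φ hφ => ?_⟩
  obtain ⟨g, hg1, hg2⟩ := H361.FU.exists_g φ hφ
  refine ⟨fun x => H361.FU.sq g (H361.FU.Ax x), fun x => H361.FU.sq_Xi g _, fun x N => ?_,
    fun x N => ?_, fun x y hxy hle => ?_⟩
  · exact H361.FU.small g φ hg1 hg2 _ (H361.FU.Ax_infinite x) N
  · exact hlarge g hg1 _ (H361.FU.Ax_compl x) N
  · exact H361.FU.Ax_diff hxy.symm (H361.FU.compare g hg1 _ _ hle)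

end Pool.Agent.Results.MP_0b0f5a_al.ManyClasses
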