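import Pool.Agent.H361.FU.Er

/-!
# The Folner functions of the groups `G_ω` have no complete Borel invariants

The groups `G ω`, their generators `gens ω`, `IsFolner` and `Xi` are those of the library file
`LowerBounds` for the same problem.
-/

set_option autoImplicit false

namespace Pool.Agent.Results.MP_0b0f5a_al.NoInvariants

open Pool.Agent.Results.MP_0b0f5a_al.LowerBounds Filter

/-- the Folner function `f_ω(n)` of `G_ω` for the four canonical generators -/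
noncomputable def fol (ω : ℕ → Fin 3) (n : ℕ) : ℕ :=
  sInf {m | ∃ E : Set (G ω), E.Finite ∧ E.Nonempty ∧ IsFolner ω n E ∧ E.ncard = m}

/-- `f ≼ f'`: there is `C` with `f(n) ≤ C f'(C n)` for all `n ≥ 1` -/
def Le (f f' : ℕ → ℕ) : Prop := ∃ C : ℕ, ∀ n, 1 ≤ n → f n ≤ C * f' (C * n)

/-- the equivalence `f ∼ f'` of the problem -/
def Eqv (f f' : ℕ → ℕ) : Prop := Le f f' ∧ Le f' f

/-- **Theorem.** (1) If `ω ∈ Ξ` and `ω'` agree from some place on, then `f_ω ∼ f_{ω'}`.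
(2) Let `Θ` be a map from `Ω = {0,1,2}^ℕ` to a second countable `T₀` space such that the preimages
of the open sets have the Baire property (for example a Borel map to `ℝ`), and let `Θ` be an
invariant: `f_ω ∼ f_{ω'}` implies `Θ ω = Θ ω'`, for `ω, ω' ∈ Ξ`.  Then `Θ` is constant on a
comeager set, and for a comeager set of pairs `ω, ω' ∈ Ξ` one has `Θ ω = Θ ω'` and neither
`f_ω ≼ f_{ω'}` nor `f_{ω'} ≼ f_ω`.
(3) So no Borel map `Θ : Ω → ℝ` has `Θ ω = Θ ω'` exactly when `f_ω ∼ f_{ω'}`, for `ω, ω' ∈ Ξ`. -/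
theorem result :
    (∀ (ω ω' : ℕ → Fin 3) (K : ℕ), Xi ω → (∀ n, K ≤ n → ω n = ω' n) → Eqv (fol ω) (fol ω')) ∧
    (∀ (Y : Type) [TopologicalSpace Y] [SecondCountableTopology Y] [T0Space Y]
      (Θ : (ℕ → Fin 3) → Y), (∀ U : Set Y, IsOpen U → BaireMeasurableSet (Θ ⁻¹' U)) →
      (∀ ω ω' : ℕ → Fin 3, Xi ω → Xi ω' → Eqv (fol ω) (fol ω') → Θ ω = Θ ω') →
      (∃ y, ∀ᶠ ω in residual (ℕ → Fin 3), Θ ω = y) ∧
      ∀ᶠ p in residual ((ℕ → Fin 3) × (ℕ → Fin 3)), Xi p.1 ∧ Xi p.2 ∧ Θ p.1 = Θ p.2 ∧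
        ¬ Le (fol p.1) (fol p.2) ∧ ¬ Le (fol p.2) (fol p.1)) ∧
    ¬ ∃ Θ : (ℕ → Fin 3) → ℝ, Measurable Θ ∧ ∀ ω ω' : ℕ → Fin 3, Xi ω → Xi ω' →
      (Θ ω = Θ ω' ↔ Eqv (fol ω) (fol ω')) := by
  refine ⟨fun ω ω' K h hK => H361.FU.eqv_tail h K hK, ?_, ?_⟩
  · intro Y _ _ _ Θ hΘ hinv
    exact ⟨H361.FU.gen_erg Θ hΘ hinv, H361.FU.no_class Θ hΘ hinv⟩
  · rintro ⟨Θ, hm, h⟩
    have h1 := H361.FU.no_class Θ (fun U hU => (hm hU.measurableSet).baireMeasurableSet)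
      fun ω ω' hω hω' he => (h ω ω' hω hω').2 he
    obtain ⟨p, hp1, hp2, hp3, hp4, _⟩ := (dense_of_mem_residual h1).nonempty
    exact hp4 ((h p.1 p.2 hp1 hp2).1 hp3).1

end Pool.Agent.Results.MP_0b0f5a_al.NoInvariants
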