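import Pool.Agent.H361.FU.Bd

/-!
# Upper bounds for the Folner functions of the groups `G_ω`

The groups `G ω`, their generators `gens ω` and `IsFolner` are those of the library file
`LowerBounds` for the same problem.
-/

set_option autoImplicit false

namespace Pool.Agent.Results.MP_0b0f5a_al.UpperBounds

open Pool.Agent.Results.MP_0b0f5a_al.LowerBounds

/-- the Folner function `f_ω(n)` of `G_ω` for the four canonical generators -/
noncomputable def fol (ω : ℕ → Fin 3) (n : ℕ) : ℕ :=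
  sInf {m | ∃ E : Set (G ω), E.Finite ∧ E.Nonempty ∧ IsFolner ω n E ∧ E.ncard = m}

/-- **Theorem.** (1) For all `ω` and all `n ≥ 1` there is a Folner set for `n`, and
`f_ω(n) ≤ 10 ^ (256 n²)`.  (2) If `ω` has a run of `r` equal letters at the places
`k, …, k + r - 1` and `4096 n² < 2 ^ (k + 2 r)`, then `f_ω(n) ≤ 10 ^ (2 ^ (k + r))`. -/
theorem result (ω : ℕ → Fin 3) :
    (∀ n : ℕ, 1 ≤ n → (∃ E : Set (G ω), E.Finite ∧ E.Nonempty ∧ IsFolner ω n E) ∧
      fol ω n ≤ 10 ^ (256 * n ^ 2)) ∧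
    ∀ k r n : ℕ, 1 ≤ n → (∀ m, m < r → ω (k + m) = ω k) → 4096 * n ^ 2 < 2 ^ (k + 2 * r) →
      fol ω n ≤ 10 ^ 2 ^ (k + r) := by
  have key : ∀ (n M : ℕ), (∃ E : Set (G ω), E.Finite ∧ E.Nonempty ∧ IsFolner ω n E ∧
      E.ncard ≤ M) → fol ω n ≤ M := by
    rintro n M ⟨E, h1, h2, h3, h4⟩
    refine le_trans (Nat.sInf_le ?_) h4
    exact ⟨E, h1, h2, h3, rfl⟩
  refine ⟨fun n hn => ?_, fun k r n hn hr h => key n _ (H361.FU.upper_run ω k r n hn hr h)⟩
  obtain ⟨E, h1, h2, h3, h4⟩ := H361.FU.upper_all ω n hn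
  exact ⟨⟨E, h1, h2, h3⟩, key n _ ⟨E, h1, h2, h3, h4⟩⟩

end Pool.Agent.Results.MP_0b0f5a_al.UpperBounds
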